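import Pool.Agent.Helper70.SUB.SheetA

/-!
Project SUB, rows LAU2 and NUM: values of Laurent polynomials in S-units.
-/

set_option autoImplicit false

namespace Pool.Agent.Helper78.SUB

open Pool.Agent.Helper70.SUB Finset

/-! ### S-units -/

theorem SU_one (S : Finset ℕ) : SU S 1 := by
  refine ⟨one_ne_zero, fun q hq h => ?_⟩
  have h1 := Int.isUnit_iff.1 (isUnit_of_dvd_one h)
  have h2 := hq.two_le
  omega

theorem SU_mul {S : Finset ℕ} {x y : ℤ} (hx : SU S x) (hy : SU S y) : SU S (x * y) :=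
  ⟨mul_ne_zero hx.1 hy.1, fun q hq h => ((Nat.prime_iff_prime_int.1 hq).dvd_or_dvd h).elim
    (hx.2 q hq) (hy.2 q hq)⟩

theorem SU_pow {S : Finset ℕ} {x : ℤ} (hx : SU S x) : ∀ n : ℕ, SU S (x ^ n)
  | 0 => by rw [pow_zero]; exact SU_one S
  | n + 1 => by rw [pow_succ]; exact SU_mul (SU_pow hx n) hx

theorem SU_prod {S : Finset ℕ} {κ : Type} (s : Finset κ) (f : κ → ℤ)
    (h : ∀ k ∈ s, SU S (f k)) : SU S (∏ k ∈ s, f k) := by
  classical
  induction s using Finset.induction_on with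
  | empty => rw [Finset.prod_empty]; exact SU_one S
  | insert k s hk ih =>
    rw [Finset.prod_insert hk]
    exact SU_mul (h k (Finset.mem_insert_self _ _))
      (ih fun i hi => h i (Finset.mem_insert_of_mem hi))

/-! ### monomials -/

theorem mon_ne {r : ℕ} {w : Fin r → ℚ} (hw : ∀ k, 0 < w k) (m : Fin r → ℤ) : mon w m ≠ 0 :=
  Finset.prod_ne_zero_iff.2 fun k _ => zpow_ne_zero _ (hw k).ne'

theorem mon_sub {r : ℕ} {w : Fin r → ℚ} (hw : ∀ k, 0 < w k) (m m' : Fin r → ℤ) :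
    mon w (m - m') = mon w m / mon w m' := by
  unfold mon
  rw [← Finset.prod_div_distrib]
  exact Finset.prod_congr rfl fun k _ => zpow_sub₀ (hw k).ne' _ _

/-- the common denominator -/
def Dn {r : ℕ} (b : ℕ) (w : Fin r → ℚ) : ℤ := ∏ k, ((w k).num * ((w k).den : ℤ)) ^ b
/-- the integer `Dn * mon` -/
def un {r : ℕ} (b : ℕ) (w : Fin r → ℚ) (m : Fin r → ℤ) : ℤ :=
  ∏ k, ((w k).num ^ ((b : ℤ) + m k).toNat * ((w k).den : ℤ) ^ ((b : ℤ) - m k).toNat)

theorem un_eq {r : ℕ} {b : ℕ} {w : Fin r → ℚ} (hw : ∀ k, 0 < w k) {m : Fin r → ℤ}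
    (hm : ∀ k, (m k).natAbs ≤ b) : (un b w m : ℚ) = Dn b w * mon w m := by
  unfold un Dn mon
  push_cast
  rw [← Finset.prod_mul_distrib]
  refine Finset.prod_congr rfl fun k _ => ?_
  have hn : ((w k).num : ℚ) ≠ 0 := by
    have := (Rat.num_pos.2 (hw k)).ne'
    exact_mod_cast this
  have hd : ((w k).den : ℚ) ≠ 0 := by exact_mod_cast (w k).den_nz
  have h1 : (w k) ^ m k = ((w k).num : ℚ) ^ m k / ((w k).den : ℚ) ^ m k := by
    conv_lhs => rw [← Rat.num_div_den (w k)]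
    exact div_zpow _ _ _
  have h := hm k
  have e1 : ((w k).num : ℚ) ^ ((b : ℤ) + m k).toNat = (w k).num ^ (b : ℤ) * (w k).num ^ m k := by
    rw [← zpow_natCast, Int.toNat_of_nonneg (by omega), zpow_add₀ hn]
  have e2 : ((w k).den : ℚ) ^ ((b : ℤ) - m k).toNat =
      ((w k).den : ℚ) ^ (b : ℤ) / ((w k).den : ℚ) ^ m k := by
    rw [← zpow_natCast, Int.toNat_of_nonneg (by omega), zpow_sub₀ hd]
  rw [e1, e2, h1, mul_pow, zpow_natCast, zpow_natCast]
  field_simp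

theorem un_SU {r : ℕ} {b : ℕ} {w : Fin r → ℚ} {S : Finset ℕ} {H : ℝ}
    (h : ∀ k, SQ S H (w k)) (m : Fin r → ℤ) : SU S (un b w m) :=
  SU_prod _ _ fun k _ => SU_mul (SU_pow (h k).1 _) (SU_pow (h k).2.1 _)

theorem Dn_SU {r : ℕ} {b : ℕ} {w : Fin r → ℚ} {S : Finset ℕ} {H : ℝ}
    (h : ∀ k, SQ S H (w k)) : SU S (Dn b w) :=
  SU_prod _ _ fun k _ => SU_pow (SU_mul (h k).1 (h k).2.1) _

theorem un_le {r : ℕ} {b : ℕ} {w : Fin r → ℚ} {S : Finset ℕ} {H : ℝ} (hH : 1 ≤ H)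
    (h : ∀ k, SQ S H (w k)) {m : Fin r → ℤ} (hm : ∀ k, (m k).natAbs ≤ b) :
    |(un b w m : ℝ)| ≤ H ^ (2 * b * r) := by
  unfold un
  push_cast
  rw [Finset.abs_prod]
  have h1 : ∀ k ∈ (Finset.univ : Finset (Fin r)), |((w k).num : ℝ) ^ ((b : ℤ) + m k).toNat *
      ((w k).den : ℝ) ^ ((b : ℤ) - m k).toNat| ≤ H ^ (2 * b) := fun k _ => by
    rw [abs_mul, abs_pow, abs_pow]
    have a1 : |((w k).num : ℝ)| ^ ((b : ℤ) + m k).toNat ≤ H ^ ((b : ℤ) + m k).toNat :=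
      pow_le_pow_left₀ (abs_nonneg _) (h k).2.2.1 _
    have a2 : |((w k).den : ℝ)| ^ ((b : ℤ) - m k).toNat ≤ H ^ ((b : ℤ) - m k).toNat := by
      refine pow_le_pow_left₀ (abs_nonneg _) ?_ _
      rw [abs_of_nonneg (Nat.cast_nonneg _)]
      exact (h k).2.2.2
    have a3 := mul_le_mul a1 a2 (by positivity) (by positivity)
    rw [← pow_add] at a3
    have hk := hm k
    have e : ((b : ℤ) + m k).toNat + ((b : ℤ) - m k).toNat = 2 * b := by omega
    rw [e] at a3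
    exact a3
  refine (Finset.prod_le_prod (fun k _ => abs_nonneg _) h1).trans (le_of_eq ?_)
  rw [Finset.prod_const, Finset.card_univ, Fintype.card_fin, ← pow_mul]

/-- a bound for the exponents -/
theorem exp_bound {r : ℕ} (s : Finset (Fin r → ℤ)) :
    ∃ b : ℕ, ∀ m ∈ s, ∀ k, (m k).natAbs ≤ b := by
  refine ⟨∑ m ∈ s, ∑ k, (m k).natAbs, fun m hm k => ?_⟩
  refine le_trans (Finset.single_le_sum (f := fun k => (m k).natAbs) (fun _ _ => Nat.zero_le _)
    (Finset.mem_univ k)) ?_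
  exact Finset.single_le_sum (f := fun m : Fin r → ℤ => ∑ k, (m k).natAbs)
    (fun _ _ => Nat.zero_le _) hm

theorem sum_un {r : ℕ} {b : ℕ} {w : Fin r → ℚ} (hw : ∀ k, 0 < w k) {F : Lau r}
    (hb : ∀ m ∈ Finsupp.support F.coeff, ∀ k, (m k).natAbs ≤ b) :
    ∑ m ∈ Finsupp.support F.coeff, F.coeff m * (un b w m : ℚ) = Dn b w * evL w F := by
  unfold evL
  rw [Finset.mul_sum]
  refine Finset.sum_congr rfl fun m hm => ?_
  rw [un_eq hw (hb m hm)]
  ring

theorem LAU2 (hAV : ST_AV) (hU2 : ST_U2) : ST_LAU2 := by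
  classical
  intro r S M w F ε H v hS hM hε hF hInd hSQ hH hv
  obtain ⟨-, -, hAV⟩ := hAV
  obtain ⟨avpos, avmul, -⟩ := hAV S hS
  obtain ⟨b, hb⟩ := exp_bound (Finsupp.support F.coeff)
  have hne : (Finsupp.support F.coeff).Nonempty := by
    rw [Finsupp.support_nonempty_iff]
    intro h
    apply hF
    ext m
    rw [h]
    rfl
  have hne' : Nonempty (Finsupp.support F.coeff) := hne.to_subtype
  set e' : ℝ := ε / (2 * b * r + 1) with he'
  have hd : (0 : ℝ) < 2 * b * r + 1 := by positivity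
  obtain ⟨C, hC, hfin⟩ := hU2 (Finsupp.support F.coeff) S (fun m => F.coeff m) e' M
    (fun j m => un b (w j) m) v hS hne' (fun m => Finsupp.mem_support_iff.1 m.2)
    (by positivity) hM (fun j hj m => un_SU (hSQ j hj) m) (fun i i' ρ hii => by
      refine (hInd.2 (i - i') ρ (fun h => hii (Subtype.ext (sub_eq_zero.1 h)))).subset ?_
      rintro j ⟨hj, h⟩
      refine ⟨hj, ?_⟩
      have hw := hInd.1 j hj
      rw [un_eq hw (hb i i.2), un_eq hw (hb i' i'.2)] at h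
      have hD : ((Dn b (w j) : ℤ) : ℚ) ≠ 0 := by exact_mod_cast (Dn_SU (hSQ j hj)).1
      rw [mon_sub hw, div_eq_iff (mon_ne hw _)]
      have h2 : ((Dn b (w j) : ℤ) : ℚ) * mon (w j) i = Dn b (w j) * (ρ * mon (w j) i') := by
        rw [h]
        ring
      exact mul_left_cancel₀ hD h2) hv
  refine ⟨C, hC, hfin.subset ?_⟩
  rintro j ⟨hj, h⟩
  refine ⟨hj, fun hgood => h fun m hm => ?_⟩
  have hw := hInd.1 j hj
  have hH1 := hH j hj
  have h1 := hgood ⟨m, hm⟩ (H j ^ (2 * b * r)) fun i' => un_le hH1 (hSQ j hj) (hb i' i'.2)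
  have hD : ((Dn b (w j) : ℤ) : ℚ) ≠ 0 := by exact_mod_cast (Dn_SU (hSQ j hj)).1
  have hDp := avpos v hv _ hD
  have e1 : ∑ i : Finsupp.support F.coeff, F.coeff i * (un b (w j) i : ℚ) =
      Dn b (w j) * evL (w j) F := by
    rw [Finset.sum_coe_sort (Finsupp.support F.coeff)
      (fun m => F.coeff m * (un b (w j) m : ℚ))]
    exact sum_un hw hb
  have e2 : (un b (w j) m : ℚ) = Dn b (w j) * mon (w j) m := un_eq hw (hb m hm)
  rw [e1, avmul v hv] at h1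
  have h2 : C * av v (un b (w j) m : ℚ) * (H j ^ (2 * b * r)) ^ (-e') ≤
      av v (Dn b (w j)) * av v (evL (w j) F) := h1
  rw [e2, avmul v hv] at h2
  have hmon := avpos v hv _ (mon_ne hw m)
  have h3 : C * av v (mon (w j) m) * (H j ^ (2 * b * r)) ^ (-e') ≤ av v (evL (w j) F) := by
    refine le_of_mul_le_mul_left ?_ hDp
    refine le_trans (le_of_eq ?_) h2
    ring
  refine le_trans ?_ h3
  refine mul_le_mul_of_nonneg_left ?_ (by positivity)
  have h0 : (0 : ℝ) ≤ H j := zero_le_one.trans hH1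
  rw [← Real.rpow_natCast, ← Real.rpow_mul h0]
  refine Real.rpow_le_rpow_of_exponent_le hH1 ?_
  push_cast
  rw [mul_neg, neg_le_neg_iff, he', mul_div_assoc', div_le_iff₀ hd]
  nlinarith [hε]

/-! ### denominators -/

theorem NUM (hAV : ST_AV) : ST_NUM := by
  classical
  intro r S F hS
  obtain ⟨-, -, hAV⟩ := hAV
  obtain ⟨avpos, avmul, -, -, -, -, av1, avS, -⟩ := hAV S hS
  obtain ⟨b, hb⟩ := exp_bound (Finsupp.support F.coeff)
  set D0 : ℕ := ∏ m ∈ Finsupp.support F.coeff, (F.coeff m).den with hD0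
  have hD0' : ((D0 : ℤ) : ℚ) ≠ 0 := by
    have : D0 ≠ 0 := Finset.prod_ne_zero_iff.2 fun m _ => (F.coeff m).den_nz
    exact_mod_cast this
  have hint : ∀ m ∈ Finsupp.support F.coeff, ∃ z : ℤ, (z : ℚ) = (D0 : ℤ) * F.coeff m := by
    intro m hm
    obtain ⟨c, hc⟩ := Finset.dvd_prod_of_mem (fun m => (F.coeff m).den) hm
    refine ⟨c * (F.coeff m).num, ?_⟩
    have e : (D0 : ℤ) = (F.coeff m).den * c := by
      rw [hD0, hc]
      push_cast
      ring
    rw [e]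
    push_cast
    have h := Rat.mul_den_eq_num (F.coeff m)
    rw [← h]
    ring
  choose! z hz using hint
  have hP0 : 0 < ∏ v ∈ plc S, av v ((D0 : ℤ) : ℚ) :=
    Finset.prod_pos fun v hv => avpos v hv _ hD0'
  refine ⟨(∏ v ∈ plc S, av v ((D0 : ℤ) : ℚ))⁻¹, inv_pos.2 hP0, fun w H hw hSQ hne => ?_⟩
  have hDS : SU S (Dn b w) := Dn_SU hSQ
  have hD : ((Dn b w : ℤ) : ℚ) ≠ 0 := by exact_mod_cast hDS.1
  set Z : ℤ := ∑ m ∈ Finsupp.support F.coeff, z m * un b w m with hZ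
  have eZ : (Z : ℚ) = (D0 : ℤ) * ((Dn b w : ℤ) * evL w F) := by
    rw [← sum_un hw hb, Finset.mul_sum, hZ]
    push_cast
    refine Finset.sum_congr rfl fun m hm => ?_
    rw [hz m hm]
    push_cast
    ring
  have hZ0 : Z ≠ 0 := by
    intro h
    rw [h, Int.cast_zero] at eZ
    exact mul_ne_zero hD0' (mul_ne_zero hD hne) eZ.symm
  have h1 := av1 Z hZ0
  have h2 : ∏ v ∈ plc S, av v (Z : ℚ) = (∏ v ∈ plc S, av v ((D0 : ℤ) : ℚ)) *
      ((∏ v ∈ plc S, av v ((Dn b w : ℤ) : ℚ)) * ∏ v ∈ plc S, av v (evL w F)) := by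
    rw [← Finset.prod_mul_distrib, ← Finset.prod_mul_distrib]
    refine Finset.prod_congr rfl fun v hv => ?_
    rw [eZ, avmul v hv, avmul v hv]
  rw [h2, avS (Dn b w) hDS.1 hDS.2, one_mul] at h1
  rw [inv_eq_one_div, div_le_iff₀' hP0]
  exact h1

end Pool.Agent.Helper78.SUB
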