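import Pool.Agent.Helper70.SUB.SheetA

/-!
Project SUB, row CLEAN: removal of cancelling terms.
-/

set_option autoImplicit false

namespace Pool.Agent.Helper78.SUB

open Pool.Agent.Helper70.SUB Finset

/-- pigeonhole on an infinite set -/
theorem pig {α : Type} [Finite α] {M : Set ℕ} (hM : M.Infinite) (f : ℕ → α) :
    ∃ y, {j | j ∈ M ∧ f j = y}.Infinite := by
  by_contra h
  push Not at h
  refine hM ?_
  have e : M = ⋃ y, {j | j ∈ M ∧ f j = y} := by
    ext j
    simp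
  rw [e]
  exact Set.finite_iUnion fun y => h y

/-- a representation with the terms in `I` -/
def Rep {t : ℕ} (M : Set ℕ) (a : ℕ → Fin t → ℤ) (I : Finset (Fin t)) : Prop :=
  ∃ (M' : Set ℕ) (c : Fin t → ℚ), M' ⊆ M ∧ M'.Infinite ∧ (∀ i ∈ I, c i ≠ 0) ∧
    (∀ j ∈ M', ∀ i ∈ I, a j i ≠ 0) ∧
    ∀ j ∈ M', ((∑ i, a j i : ℤ) : ℚ) = ∑ i ∈ I, c i * (a j i : ℚ)

theorem rep_exists {t : ℕ} {M : Set ℕ} (a : ℕ → Fin t → ℤ) (hM : M.Infinite) :
    ∃ I, Rep M a I := by
  classical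
  obtain ⟨I, hI⟩ := pig hM (fun j => Finset.univ.filter fun i => a j i ≠ 0)
  refine ⟨I, {j | j ∈ M ∧ (Finset.univ.filter fun i => a j i ≠ 0) = I}, fun _ => 1,
    fun j hj => hj.1, hI, fun i _ => one_ne_zero, fun j hj i hi => ?_, fun j hj => ?_⟩
  · have := hj.2 ▸ hi
    exact (Finset.mem_filter.1 this).2
  · push_cast
    rw [← hj.2, Finset.sum_filter]
    refine Finset.sum_congr rfl fun i _ => ?_
    by_cases h : a j i = 0
    · rw [h, if_neg (by simp), Int.cast_zero]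
    · rw [if_pos h, one_mul]

/-- in a minimal representation no two terms are proportional -/
theorem rep_min {t : ℕ} {M : Set ℕ} {a : ℕ → Fin t → ℤ} {I : Finset (Fin t)} {M' : Set ℕ}
    {c : Fin t → ℚ} (hs : M' ⊆ M) (hc : ∀ i ∈ I, c i ≠ 0) (ha : ∀ j ∈ M', ∀ i ∈ I, a j i ≠ 0)
    (hsum : ∀ j ∈ M', ((∑ i, a j i : ℤ) : ℚ) = ∑ i ∈ I, c i * (a j i : ℚ))
    (hmin : ∀ J, Rep M a J → I.card ≤ J.card) {i i' : Fin t} (hi : i ∈ I) (hi' : i' ∈ I)
    (hne : i ≠ i') (ρ : ℚ) : {j | j ∈ M' ∧ (a j i : ℚ) = ρ * a j i'}.Finite := by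
  classical
  by_contra h
  have h : {j | j ∈ M' ∧ (a j i : ℚ) = ρ * a j i'}.Infinite := h
  have hi'' : i' ∈ I.erase i := Finset.mem_erase.2 ⟨hne.symm, hi'⟩
  have hcard : (I.erase i).card < I.card := Finset.card_erase_lt_of_mem hi
  have hcard2 : ((I.erase i).erase i').card ≤ (I.erase i).card := Finset.card_erase_le
  have key : ∀ j, j ∈ M' ∧ (a j i : ℚ) = ρ * a j i' → ((∑ i, a j i : ℤ) : ℚ) =
      (c i' + c i * ρ) * a j i' + ∑ k ∈ (I.erase i).erase i', c k * (a j k : ℚ) := by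
    intro j hj
    rw [hsum j hj.1, ← Finset.add_sum_erase I _ hi, ← Finset.add_sum_erase (I.erase i) _ hi'',
      hj.2]
    ring
  by_cases h0 : c i' + c i * ρ = 0
  · have := hmin ((I.erase i).erase i') ⟨{j | j ∈ M' ∧ (a j i : ℚ) = ρ * a j i'}, c,
      fun j hj => hs hj.1, h,
      fun k hk => hc k (Finset.mem_of_mem_erase (Finset.mem_of_mem_erase hk)),
      fun j hj k hk => ha j hj.1 k (Finset.mem_of_mem_erase (Finset.mem_of_mem_erase hk)),
      fun j hj => by rw [key j hj, h0, zero_mul, zero_add]⟩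
    omega
  · have := hmin (I.erase i) ⟨{j | j ∈ M' ∧ (a j i : ℚ) = ρ * a j i'},
      Function.update c i' (c i' + c i * ρ), fun j hj => hs hj.1, h, fun k hk => by
        by_cases hk' : k = i'
        · rw [hk', Function.update_self]
          exact h0
        · rw [Function.update_of_ne hk']
          exact hc k (Finset.mem_of_mem_erase hk),
      fun j hj k hk => ha j hj.1 k (Finset.mem_of_mem_erase hk), fun j hj => by
        rw [key j hj, ← Finset.add_sum_erase (I.erase i) _ hi'', Function.update_self]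
        congr 1
        refine Finset.sum_congr rfl fun k hk => ?_
        rw [Function.update_of_ne (Finset.ne_of_mem_erase hk)]⟩
    omega

theorem CLEAN (hU2 : ST_U2) : ST_CLEAN := by
  classical
  intro t S M a hS hM ha hsum
  obtain ⟨I, hI, hmin⟩ := Set.exists_min_image {I | Rep M a I} Finset.card (Set.toFinite _)
    (rep_exists a hM)
  obtain ⟨M', c, hs, hM', hc, ha', hsum'⟩ := hI
  have hIne : I.Nonempty := by
    by_contra h
    rw [Finset.not_nonempty_iff_eq_empty] at h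
    obtain ⟨j, hj⟩ := hM'.nonempty
    have h1 := hsum' j hj
    rw [h, Finset.sum_empty] at h1
    exact hsum j (hs hj) (by exact_mod_cast h1)
  have hne : Nonempty I := hIne.to_subtype
  obtain ⟨C, hC, hfin⟩ := hU2 I S (fun i => c i) (1 / 2) M' (fun j i => a j i) none hS hne
    (fun i => hc i i.2) (by norm_num) hM'
    (fun j hj i => (ha j (hs hj) i).resolve_left (ha' j hj i i.2))
    (fun i i' ρ hne => rep_min hs hc ha' hsum' hmin i.2 i'.2 (fun h => hne (Subtype.ext h)) ρ)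
    (by unfold plc; exact Finset.none_mem_insertNone)
  refine ⟨M' \ {j | j ∈ M' ∧ ¬ ∀ (i : I) (H : ℝ), (∀ i' : I, |(a j i' : ℝ)| ≤ H) →
    C * av none (a j i) * H ^ (-(1 / 2 : ℝ)) ≤ av none (∑ i : I, c i * (a j i : ℚ))},
    Fintype.card I, fun k => c ((Fintype.equivFin I).symm k),
    fun j k => a j ((Fintype.equivFin I).symm k), fun j hj => hs hj.1, hM'.sdiff hfin,
    fun k => hc _ (Subtype.prop _), fun j hj k =>
      (ha j (hs hj.1) _).resolve_left (ha' j hj.1 _ (Subtype.prop _)), fun j hj => ?_,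
    (C ^ 2)⁻¹, fun j hj k => ?_⟩
  · rw [hsum' j hj.1, ← Finset.sum_coe_sort I]
    exact (Equiv.sum_comp (Fintype.equivFin I).symm fun i : I => c i * (a j i : ℚ)).symm
  · have hj' : ∀ (i : I) (H : ℝ), (∀ i' : I, |(a j i' : ℝ)| ≤ H) →
        C * av none (a j i) * H ^ (-(1 / 2 : ℝ)) ≤ av none (∑ i : I, c i * (a j i : ℚ)) := by
      by_contra h
      exact hj.2 ⟨hj.1, h⟩
    obtain ⟨i0, -, hi0⟩ := Finset.exists_max_image (Finset.univ : Finset I)
      (fun i => |(a j i : ℝ)|) Finset.univ_nonempty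
    have h1 := hj' i0 |(a j i0 : ℝ)| fun i' => hi0 i' (Finset.mem_univ _)
    rw [Finset.sum_coe_sort I (fun i => c i * (a j i : ℚ)), ← hsum' j hj.1] at h1
    have e1 : av none ((a j i0 : ℤ) : ℚ) = |(a j i0 : ℝ)| := by
      show |(((a j i0 : ℤ) : ℚ) : ℝ)| = _
      rw [Rat.cast_intCast]
    have e2 : av none ((∑ i, a j i : ℤ) : ℚ) = |((∑ i, a j i : ℤ) : ℝ)| := by
      show |(((∑ i, a j i : ℤ) : ℚ) : ℝ)| = _
      rw [Rat.cast_intCast]
    rw [e1, e2] at h1
    have hz : a j i0 ≠ 0 := ha' j hj.1 _ i0.2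
    have hpos : (0 : ℝ) < |(a j i0 : ℝ)| := abs_pos.2 (by exact_mod_cast hz)
    set X := |((∑ i, a j i : ℤ) : ℝ)| with hX
    set H := |(a j i0 : ℝ)| with hH
    have h2 : |(a j ((Fintype.equivFin I).symm k) : ℝ)| ≤ H := hi0 _ (Finset.mem_univ _)
    have h3 : H * H ^ (-(1 / 2 : ℝ)) = H ^ (1 / 2 : ℝ) := by
      rw [← Real.rpow_one_add' hpos.le (by norm_num)]
      norm_num
    rw [mul_assoc, h3] at h1
    have h4 : (C * H ^ (1 / 2 : ℝ)) ^ 2 ≤ X ^ 2 := by
      have : 0 ≤ C * H ^ (1 / 2 : ℝ) := by positivity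
      exact pow_le_pow_left₀ this h1 2
    have h5 : (H ^ (1 / 2 : ℝ)) ^ 2 = H := by
      rw [← Real.rpow_natCast, ← Real.rpow_mul hpos.le]
      norm_num
    rw [mul_pow, h5] at h4
    refine h2.trans ?_
    rw [Real.rpow_two, inv_mul_eq_div, le_div_iff₀ (by positivity), mul_comm]
    exact h4

end Pool.Agent.Helper78.SUB
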