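import Pool.Agent.Helper94.SUB.T1X

/-!
Project SUB, row T1C.
-/

set_option autoImplicit false

namespace Pool.Agent.Helper78.SUB

open Pool.Agent.Helper70.SUB Finset

/-- the analytic part -/
theorem ana (t K : ℕ) (δ C : ℝ) (c : ℕ → ℝ) (hC : 1 ≤ C) (hδ : 0 < δ) (hK : 3 ≤ δ * K)
    (hbin : ∀ v : ℝ, |v| ≤ 1 / 2 →
      |(1 + v) ^ (2 / 3 : ℝ) - ∑ k ∈ Finset.range K, c k * v ^ k| ≤ C * |v| ^ K) :
    ∃ B0 : ℝ, 2 ≤ B0 ∧ ∀ w s x : ℝ, B0 ≤ |w| → |s| ≤ t * |w| ^ (3 - δ) → 2 ≤ x →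
      |(w ^ 3 + s) ^ 2 - x ^ 3| ≤ x →
      |x - w ^ 2 * ∑ k ∈ Finset.range K, c k * (s / w ^ 3) ^ k| ≤ |w| ^ (-(1 / 2 : ℝ)) ∧
        |w| ≤ x ∧ x ≤ |w| ^ 3 := by
  have h1 : ∀ᶠ W : ℝ in Filter.atTop, 2 * (t : ℝ) ≤ W ^ δ :=
    (tendsto_rpow_atTop hδ).eventually_ge_atTop _
  have h2 : ∀ᶠ W : ℝ in Filter.atTop, 2 + C * (t : ℝ) ^ K ≤ W ^ (1 / 2 : ℝ) :=
    (tendsto_rpow_atTop (by norm_num)).eventually_ge_atTop _
  obtain ⟨B, hB⟩ := Filter.eventually_atTop.1 (h1.and h2)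
  refine ⟨max B 2, le_max_right _ _, fun w s x hw hs hx hd => ?_⟩
  obtain ⟨b1, b2⟩ := hB |w| ((le_max_left _ _).trans hw)
  have w2 : (2 : ℝ) ≤ |w| := (le_max_right _ _).trans hw
  set W := |w| with hW
  have Wp : 0 < W := by linarith
  have w0 : w ≠ 0 := by
    intro h
    rw [hW, h, abs_zero] at Wp
    exact lt_irrefl _ Wp
  have wsq : w ^ 2 = W ^ 2 := (sq_abs w).symm
  set v := s / w ^ 3 with hv
  have hy : w ^ 3 + s = w ^ 3 * (1 + v) := by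
    rw [hv]
    field_simp
  -- size of v
  have v1 : |v| ≤ t * W ^ (-δ) := by
    rw [hv, abs_div, abs_pow, ← hW, div_le_iff₀ (by positivity), mul_assoc]
    refine hs.trans (le_of_eq ?_)
    congr 1
    rw [← Real.rpow_natCast, ← Real.rpow_add Wp]
    congr 1
    push_cast
    ring
  have v2 : |v| ≤ 1 / 2 := by
    refine v1.trans ?_
    rw [Real.rpow_neg Wp.le, ← div_eq_mul_inv, div_le_iff₀ (by positivity)]
    linarith
  have v3 := abs_le.1 v2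
  -- the cube root
  set Q := (1 + v) ^ (2 / 3 : ℝ) with hQ
  have v4 : 0 ≤ 1 + v := by linarith
  have Q0 : 0 ≤ Q := Real.rpow_nonneg v4 _
  have Q3 : Q ^ 3 = (1 + v) ^ 2 := by
    rw [hQ, ← Real.rpow_natCast, ← Real.rpow_mul v4, ← Real.rpow_natCast]
    norm_num
  set Z := W ^ 2 * Q with hZ
  have Z0 : 0 ≤ Z := by positivity
  have Z3 : Z ^ 3 = (w ^ 3 + s) ^ 2 := by
    rw [hy, hZ, mul_pow, Q3, ← wsq]
    ring
  have hd2 : |Z ^ 3 - x ^ 3| ≤ x := by rw [Z3]; exact hd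
  have xp : 0 < x := by linarith
  have hd3 := abs_le.1 hd2
  have e1 : |x - Z| ≤ 1 / x := by
    have h3 : |Z - x| * (Z ^ 2 + Z * x + x ^ 2) = |Z ^ 3 - x ^ 3| := by
      have : Z ^ 3 - x ^ 3 = (Z - x) * (Z ^ 2 + Z * x + x ^ 2) := by ring
      rw [this, abs_mul, abs_of_nonneg (by positivity : 0 ≤ Z ^ 2 + Z * x + x ^ 2)]
    have h4 : |Z - x| * x ^ 2 ≤ x := by
      refine le_trans ?_ (h3.le.trans hd2)
      refine mul_le_mul_of_nonneg_left ?_ (abs_nonneg _)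
      nlinarith [mul_nonneg Z0 xp.le, sq_nonneg Z]
    rw [abs_sub_comm, le_div_iff₀ xp]
    have h5 : |Z - x| * x * x ≤ 1 * x := by
      rw [one_mul]
      nlinarith
    exact le_of_mul_le_mul_right h5 xp
  -- size of x
  have y1 : W ^ 6 / 4 ≤ Z ^ 3 := by
    have : Z ^ 3 = W ^ 6 * (1 + v) ^ 2 := by rw [hZ, mul_pow, Q3]; ring
    rw [this]
    have : 1 / 4 ≤ (1 + v) ^ 2 := by nlinarith
    have W6 : 0 ≤ W ^ 6 := by positivity
    nlinarith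
  have y2 : Z ^ 3 ≤ 4 * W ^ 6 := by
    have : Z ^ 3 = W ^ 6 * (1 + v) ^ 2 := by rw [hZ, mul_pow, Q3]; ring
    rw [this]
    have : (1 + v) ^ 2 ≤ 4 := by nlinarith
    have W6 : 0 ≤ W ^ 6 := by positivity
    nlinarith
  have x1 : 2 * x ≤ x ^ 3 := by nlinarith [mul_nonneg xp.le (by nlinarith : 0 ≤ x ^ 2 - 2)]
  have x2 : (W ^ 2 / 2) ^ 3 ≤ x ^ 3 := by
    have : (W ^ 2 / 2) ^ 3 = W ^ 6 / 8 := by ring
    rw [this]
    linarith
  have x3 : W ^ 2 / 2 ≤ x := le_of_pow_le_pow_left₀ (by norm_num) xp.le x2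
  have x4 : x ^ 3 ≤ (2 * W ^ 2) ^ 3 := by
    have : (2 * W ^ 2) ^ 3 = 8 * W ^ 6 := by ring
    rw [this]
    linarith
  have x5 : x ≤ 2 * W ^ 2 := le_of_pow_le_pow_left₀ (by norm_num) (by positivity) x4
  refine ⟨?_, ?_, ?_⟩
  · -- the approximation
    have e2 := hbin v v2
    have e3 : |Z - W ^ 2 * ∑ k ∈ Finset.range K, c k * v ^ k| ≤ W ^ 2 * (C * |v| ^ K) := by
      have : Z - W ^ 2 * ∑ k ∈ Finset.range K, c k * v ^ k =
          W ^ 2 * (Q - ∑ k ∈ Finset.range K, c k * v ^ k) := by rw [hZ]; ring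
      rw [this, abs_mul, abs_of_nonneg (by positivity : 0 ≤ W ^ 2)]
      exact mul_le_mul_of_nonneg_left e2 (by positivity)
    have e4 : |v| ^ K ≤ (t : ℝ) ^ K * W ^ (-(3 : ℝ)) := by
      have h3 := pow_le_pow_left₀ (abs_nonneg v) v1 K
      rw [mul_pow, ← Real.rpow_natCast (W ^ (-δ)) K, ← Real.rpow_mul Wp.le] at h3
      refine h3.trans (mul_le_mul_of_nonneg_left ?_ (by positivity))
      exact Real.rpow_le_rpow_of_exponent_le (by linarith) (by linarith)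
    have e5 : W ^ 2 * (C * |v| ^ K) ≤ C * (t : ℝ) ^ K / W := by
      have h3 : W ^ 2 * (C * |v| ^ K) ≤ W ^ 2 * (C * ((t : ℝ) ^ K * W ^ (-(3 : ℝ)))) :=
        mul_le_mul_of_nonneg_left (mul_le_mul_of_nonneg_left e4 (by linarith)) (by positivity)
      refine h3.trans (le_of_eq ?_)
      have h4 : W ^ (-(3 : ℝ)) = (W ^ 3)⁻¹ := by
        rw [Real.rpow_neg Wp.le]
        norm_cast
      rw [h4]
      field_simp
    have e6 : 1 / x ≤ 2 / W := by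
      rw [div_le_div_iff₀ xp Wp]
      nlinarith
    have e7 : |x - W ^ 2 * ∑ k ∈ Finset.range K, c k * v ^ k| ≤ (2 + C * (t : ℝ) ^ K) / W := by
      have h3 := abs_sub_le x Z (W ^ 2 * ∑ k ∈ Finset.range K, c k * v ^ k)
      rw [add_div]
      linarith
    rw [wsq]
    refine e7.trans ?_
    have h5 : W ^ (-(1 / 2 : ℝ)) = W ^ (1 / 2 : ℝ) / W := by
      rw [eq_div_iff Wp.ne']
      nth_rw 2 [← Real.rpow_one W]
      rw [← Real.rpow_add Wp]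
      norm_num
    rw [h5]
    gcongr
  · nlinarith
  · refine x5.trans ?_
    have : 0 ≤ W ^ 2 := by positivity
    nlinarith

open Pool.Agent.Helper94.SUB in
theorem T1C (hMONO : ST_MONO) (hLAUB : ST_LAUB) (hSUBY : ST_SUBY) (hCORE : ST_CORE)
    (hEXTR : ST_EXTR) (hBINX : ST_BINX) : ST_T1C := by
  classical
  intro S t ε δ hS hε hδ
  -- the set of counterexamples
  let τ : Type := {q : ℤ × (Fin t → ℤ) × ℤ // SU S q.1 ∧ (∀ i, q.2.1 i = 0 ∨ SU S (q.2.1 i)) ∧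
    (∀ i, |(q.2.1 i : ℝ)| ≤ |(q.1 : ℝ)| ^ (3 - δ)) ∧ (q.1 ^ 3 + ∑ i, q.2.1 i) ^ 2 ≠ q.2.2 ^ 3}
  by_contra hcon
  obtain ⟨f, hf1, hf2⟩ := hEXTR τ (fun q => q.1.2.2) (fun q => q.1.1 ^ 3 + ∑ i, q.1.2.1 i) ε hε
    (fun q => q.2.2.2.2) (by
      rintro ⟨C, hC⟩
      exact hcon ⟨C, fun w b x h1 h2 h3 h4 => hC ⟨(w, b, x), h1, h2, h3, h4⟩⟩)
  set w : ℕ → ℤ := fun j => (f j).1.1 with hw
  set b : ℕ → Fin t → ℤ := fun j => (f j).1.2.1 with hb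
  set x : ℕ → ℤ := fun j => (f j).1.2.2 with hx
  have wSU : ∀ j, SU S (w j) := fun j => (f j).2.1
  have bSU : ∀ j i, b j i = 0 ∨ SU S (b j i) := fun j => (f j).2.2.1
  have bW : ∀ j i, |(b j i : ℝ)| ≤ |(w j : ℝ)| ^ (3 - δ) := fun j => (f j).2.2.2.1
  have hne : ∀ j, (w j ^ 3 + ∑ i, b j i) ^ 2 ≠ x j ^ 3 := fun j => (f j).2.2.2.2
  have hx1 : ∀ j : ℕ, (j : ℝ) ≤ |(x j : ℝ)| := hf1
  have hd1 : ∀ j, |(((w j ^ 3 + ∑ i, b j i) ^ 2 - x j ^ 3 : ℤ) : ℝ)| ≤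
      |(x j : ℝ)| ^ (1 / (2 + ε)) := hf2
  have w1 : ∀ j, (1 : ℝ) ≤ |(w j : ℝ)| := fun j => by
    have h1 : (1 : ℤ) ≤ |w j| := Int.one_le_abs (wSU j).1
    exact_mod_cast h1
  -- real numbers
  have bsum : ∀ j, |((∑ i, b j i : ℤ) : ℝ)| ≤ t * |(w j : ℝ)| ^ (3 - δ) := fun j => by
    push_cast
    refine (Finset.abs_sum_le_sum_abs _ _).trans ?_
    refine (Finset.sum_le_sum fun i _ => bW j i).trans (le_of_eq ?_)
    rw [Finset.sum_const, Finset.card_univ, Fintype.card_fin, nsmul_eq_mul]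
  have bW3 : ∀ j i, |(b j i : ℝ)| ≤ |(w j : ℝ)| ^ (3 : ℕ) := fun j i => by
    refine (bW j i).trans ?_
    rw [← Real.rpow_natCast]
    exact Real.rpow_le_rpow_of_exponent_le (w1 j) (by push_cast; linarith)
  -- the first facts, for `2 ≤ j`
  have hxpos : ∀ j : ℕ, 2 ≤ j → (2 : ℝ) ≤ x j ∧
      |((w j : ℝ) ^ 3 + ((∑ i, b j i : ℤ) : ℝ)) ^ 2 - (x j : ℝ) ^ 3| ≤ x j := fun j hj => by
    have h2 : (2 : ℝ) ≤ |(x j : ℝ)| := le_trans (by exact_mod_cast hj) (hx1 j)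
    have h3 : |(x j : ℝ)| ^ (1 / (2 + ε)) ≤ |(x j : ℝ)| := by
      conv_rhs => rw [← Real.rpow_one |(x j : ℝ)|]
      refine Real.rpow_le_rpow_of_exponent_le (by linarith) ?_
      rw [div_le_one (by linarith)]
      linarith
    have h4 := (hd1 j).trans h3
    push_cast at h4
    have h6 : (2 : ℝ) ≤ x j := by
      rcases abs_cases (x j : ℝ) with ⟨h, _⟩ | ⟨h, _⟩
      · rw [h] at h2
        exact h2
      · exfalso
        rw [h] at h2 h4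
        have h7 := (abs_le.1 h4).2
        have h8 : 0 ≤ ((w j : ℝ) ^ 3 + ∑ i, (b j i : ℝ)) ^ 2 := sq_nonneg _
        have h9 : (x j : ℝ) ^ 3 = -(-(x j : ℝ)) ^ 3 := by ring
        rw [h9] at h7
        set z := -(x j : ℝ) with hz
        have h10 : z < z ^ 3 := by nlinarith [mul_pos (by linarith : 0 < z) (by nlinarith : 0 < z ^ 2 - 1)]
        linarith
    refine ⟨h6, ?_⟩
    rw [abs_of_nonneg (by linarith : (0 : ℝ) ≤ x j)] at h4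
    push_cast
    exact h4
  -- `|w| → ∞`
  have hwinf : ∀ B : ℝ, {j | |(w j : ℝ)| ≤ B}.Finite := fun B => by
    refine (Set.finite_le_nat (max 2 ⌈2 * (((t : ℝ) + 1) * B ^ 3) ^ 2⌉₊)).subset ?_
    intro j hj
    have hj : |(w j : ℝ)| ≤ B := hj
    show j ≤ _
    by_contra hlt
    push Not at hlt
    have hj2 : 2 ≤ j := (lt_of_le_of_lt (le_max_left _ _) hlt).le
    obtain ⟨h1, h2⟩ := hxpos j hj2
    have h3 : |(w j : ℝ) ^ 3 + ((∑ i, b j i : ℤ) : ℝ)| ≤ ((t : ℝ) + 1) * B ^ 3 := by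
      have h4 : |((∑ i, b j i : ℤ) : ℝ)| ≤ t * |(w j : ℝ)| ^ 3 := by
        push_cast
        refine (Finset.abs_sum_le_sum_abs _ _).trans ?_
        refine (Finset.sum_le_sum fun i _ => bW3 j i).trans (le_of_eq ?_)
        rw [Finset.sum_const, Finset.card_univ, Fintype.card_fin, nsmul_eq_mul]
      have h5 : |(w j : ℝ) ^ 3| = |(w j : ℝ)| ^ 3 := abs_pow _ _
      have h6 := abs_add_le ((w j : ℝ) ^ 3) ((∑ i, b j i : ℤ) : ℝ)
      have h7 : |(w j : ℝ)| ^ 3 ≤ B ^ 3 := pow_le_pow_left₀ (abs_nonneg _) hj 3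
      have h8 : ((t : ℝ) + 1) * |(w j : ℝ)| ^ 3 ≤ ((t : ℝ) + 1) * B ^ 3 :=
        mul_le_mul_of_nonneg_left h7 (by positivity)
      linarith
    have h4 : ((w j : ℝ) ^ 3 + ((∑ i, b j i : ℤ) : ℝ)) ^ 2 ≤ (((t : ℝ) + 1) * B ^ 3) ^ 2 :=
      sq_le_sq.2 (h3.trans (le_abs_self _))
    have h5 := (abs_le.1 h2).1
    have h6 : (x j : ℝ) ≤ 2 * (((t : ℝ) + 1) * B ^ 3) ^ 2 := by
      have : 2 * (x j : ℝ) ^ 3 - 2 * x j ≥ x j := by
        nlinarith [mul_nonneg (by linarith : (0 : ℝ) ≤ x j) (by nlinarith : (0 : ℝ) ≤ 2 * (x j : ℝ) ^ 2 - 3)]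
      linarith
    have h7 := (hx1 j)
    rw [abs_of_nonneg (by linarith : (0 : ℝ) ≤ x j)] at h7
    have h8 : (j : ℝ) ≤ ⌈2 * (((t : ℝ) + 1) * B ^ 3) ^ 2⌉₊ := (h7.trans h6).trans (Nat.le_ceil _)
    have h9 : j ≤ ⌈2 * (((t : ℝ) + 1) * B ^ 3) ^ 2⌉₊ := by exact_mod_cast h8
    exact absurd (lt_of_le_of_lt (le_max_right _ _) hlt) (not_lt.2 h9)
  -- the binomial series
  obtain ⟨K, hK⟩ : ∃ K : ℕ, 3 ≤ δ * K := by
    obtain ⟨K, hK⟩ := exists_nat_ge (3 / δ)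
    exact ⟨K, by rw [div_le_iff₀ hδ] at hK; linarith⟩
  obtain ⟨c, C, hC1, hbin⟩ := hBINX (2 / 3) K (by norm_num) (by norm_num)
  have hbin' : ∀ v : ℝ, |v| ≤ 1 / 2 →
      |(1 + v) ^ (2 / 3 : ℝ) - ∑ k ∈ Finset.range K, (c k : ℝ) * v ^ k| ≤ C * |v| ^ K := by
    intro v hv
    have := hbin v hv
    push_cast at this
    exact this
  obtain ⟨B0, hB0, hana⟩ := ana t K δ C (fun k => (c k : ℝ)) hC1 hδ hK hbin'
  -- restriction
  set M : Set ℕ := {j | 2 ≤ j ∧ B0 ≤ |(w j : ℝ)|} with hM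
  have hMi : M.Infinite := by
    have h1 : (Set.univ \ ({j | |(w j : ℝ)| ≤ B0} ∪ {j | j ≤ 2}) : Set ℕ).Infinite :=
      Set.infinite_univ.sdiff ((hwinf B0).union (Set.finite_le_nat 2))
    refine h1.mono ?_
    rintro j ⟨-, hj⟩
    rw [Set.mem_union, not_or] at hj
    exact ⟨(not_le.1 hj.2).le, (not_le.1 hj.1).le⟩
  have hMj : ∀ j ∈ M, |(x j : ℝ) - (w j : ℝ) ^ 2 * ∑ k ∈ Finset.range K,
      (c k : ℝ) * (((∑ i, b j i : ℤ) : ℝ) / (w j : ℝ) ^ 3) ^ k| ≤ |(w j : ℝ)| ^ (-(1 / 2 : ℝ)) ∧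
        |(w j : ℝ)| ≤ x j ∧ (x j : ℝ) ≤ |(w j : ℝ)| ^ 3 := fun j hj => by
    obtain ⟨h1, h2⟩ := hxpos j hj.1
    exact hana _ _ _ hj.2 (bsum j) h1 h2
  obtain ⟨M', S', r, v, W, Wi, A, E, σ, hM'M, hM'i, hSS', hS', hE, hInd, -, hcom⟩ :=
    com hMONO hLAUB S hS t M hMi w b (fun j _ => wSU j) (fun j _ => bSU j) (fun j _ => bW3 j)
      (fun B => (hwinf B).subset fun j hj => hj.2)
  -- the Laurent polynomial
  set F : Lau r := W ^ 2 * ∑ k ∈ Finset.range K, c k • (A * Wi ^ 3) ^ k with hF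
  have hFe : ∀ j ∈ M', ((evL (v j) F : ℚ) : ℝ) = (w j : ℝ) ^ 2 * ∑ k ∈ Finset.range K,
      (c k : ℝ) * (((∑ i, b j i : ℤ) : ℝ) / (w j : ℝ) ^ 3) ^ k := fun j hj => by
    have hv := hInd.1 j hj
    obtain ⟨-, k1, k2, k3, -⟩ := hcom j hj
    rw [hF, evL_mul hLAUB hv, evL_pow hLAUB hv, evL_sum hLAUB hv, k1]
    push_cast
    congr 1
    refine Finset.sum_congr rfl fun k _ => ?_
    rw [evL_smul hLAUB hv, evL_pow hLAUB hv, evL_mul hLAUB hv, evL_pow hLAUB hv, k2, k3]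
    push_cast
    congr 2
    rw [inv_pow, div_eq_mul_inv]
  set a : ℝ := max E 3 with ha
  have hSQ : ∀ j ∈ M', ∀ a' : ℝ, E ≤ a' → ∀ H : ℝ, |(w j : ℝ)| ≤ H → ∀ k,
      SQ S' (H ^ a') (v j k) := fun j hj a' ha' H hH k => by
    refine SQ_mono (Finset.Subset.refl _) ?_ ((hcom j hj).1 k)
    exact (Real.rpow_le_rpow_of_exponent_le (w1 j) ha').trans
      (Real.rpow_le_rpow (abs_nonneg _) hH (hE.le.trans ha'))
  obtain ⟨M'', G, hM''M', hM''i, hG⟩ := hSUBY r S' M' v F a (1 / 2) (fun j => |(w j : ℝ)|) x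
    hS' hM'i (by norm_num) (lt_of_lt_of_le hE (le_max_left _ _)) hInd
    (fun B => (hwinf B).subset fun j hj => hj.2) (fun j hj => by
      obtain ⟨h1, h2, h3⟩ := hMj j (hM'M hj)
      refine ⟨w1 j, hSQ j hj a (le_max_left _ _) _ le_rfl, ?_, ?_⟩
      · have hxp : (0 : ℝ) ≤ x j := (abs_nonneg _).trans h2
        rw [abs_of_nonneg hxp]
        refine h3.trans ?_
        rw [← Real.rpow_natCast]
        exact Real.rpow_le_rpow_of_exponent_le (w1 j) (by push_cast; exact le_max_right _ _)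
      · rw [hFe j hj]
        push_cast
        push_cast at h1
        exact h1)
  -- the core
  refine hCORE r S' M'' v G (W ^ 3 + A) E ε x (fun j => w j ^ 3 + ∑ i, b j i) hS' hM''i hε hE
    (indep_mono hM''M' hInd) (fun B => ?_) fun j hj => ?_
  · refine (Set.finite_le_nat ⌈B⌉₊).subset ?_
    rintro j ⟨-, hj⟩
    have h1 : (j : ℝ) ≤ ⌈B⌉₊ := ((hx1 j).trans hj).trans (Nat.le_ceil _)
    exact_mod_cast h1
  · have hj' := hM''M' hj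
    have hv := hInd.1 j hj'
    obtain ⟨-, k1, k2, k3, -⟩ := hcom j hj'
    obtain ⟨h1, h2, h3⟩ := hMj j (hM'M hj')
    have hxp : (0 : ℝ) ≤ x j := (abs_nonneg _).trans h2
    refine ⟨fun k => ?_, hG j hj, ?_, hne j, hd1 j⟩
    · rw [abs_of_nonneg hxp]
      exact hSQ j hj' E le_rfl _ h2 k
    · rw [evL_add hLAUB hv, evL_pow hLAUB hv, k1, k3]
      push_cast
      rfl

end Pool.Agent.Helper78.SUB
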